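import Pool.Agent.Helper18.RD.Stmts6

/-! Row BIL of project RD, sixth form (MP_b7477f_nt): bilinear sums of the Jacobi symbol modulo the
product of two primes. -/

set_option autoImplicit false

namespace Pool.Agent.Helper9.RD6

open Finset

/-- squares of the fibre sums -/
theorem sq_fib {κ : Type*} [Fintype κ] [DecidableEq κ] (J : Finset ℕ) (r : ℕ → κ) (F : ℕ → ℤ) :
    ∑ x : κ, (∑ i ∈ J, if r i = x then F i else 0) ^ 2 =
      ∑ i ∈ J, ∑ j ∈ J, if r i = r j then F i * F j else 0 := by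
  simp only [sq, sum_mul_sum]
  rw [sum_comm]
  refine sum_congr rfl fun i _ => ?_
  rw [sum_comm]
  refine sum_congr rfl fun j _ => ?_
  simp only [ite_mul, zero_mul, mul_ite, mul_zero]
  rw [sum_ite_eq]
  simp [eq_comm]

/-- the fibre sums are at most the pair count -/
theorem fib_le {κ : Type*} [Fintype κ] [DecidableEq κ] (J : Finset ℕ) (r : ℕ → κ) (F : ℕ → ℤ)
    (hF : ∀ n, |F n| ≤ 1) :
    ∑ x : κ, (∑ i ∈ J, if r i = x then F i else 0) ^ 2 ≤
      (((J ×ˢ J).filter (fun x => r x.1 = r x.2)).card : ℤ) := by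
  rw [sq_fib, card_filter, sum_product]
  push_cast
  refine sum_le_sum fun i _ => sum_le_sum fun j _ => ?_
  split_ifs
  · have h1 : |F i * F j| ≤ 1 := by
      rw [abs_mul]
      exact mul_le_one₀ (hF i) (abs_nonneg _) (hF j)
    exact (le_abs_self _).trans h1
  · exact le_rfl

/-- Cauchy–Schwarz over the residues -/
theorem cs {κ : Type*} [Fintype κ] [DecidableEq κ] (J : Finset ℕ) (r : ℕ → κ) (F : ℕ → ℤ)
    (V : κ → ℤ) : (∑ i ∈ J, F i * V (r i)) ^ 2 ≤
      (∑ x : κ, (∑ i ∈ J, if r i = x then F i else 0) ^ 2) * ∑ x : κ, V x ^ 2 := by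
  have h : ∑ i ∈ J, F i * V (r i) = ∑ x : κ, (∑ i ∈ J, if r i = x then F i else 0) * V x := by
    simp only [sum_mul]
    rw [sum_comm]
    refine sum_congr rfl fun i _ => ?_
    simp only [ite_mul, zero_mul]
    rw [sum_ite_eq]
    simp
  rw [h]
  exact sum_mul_sq_le_sq_mul_sq _ _ _

/-- the correlation of the quadratic character -/
theorem corr (p : ℕ) [Fact p.Prime] (hp : p ≠ 2) (u v : ZMod p) :
    ∑ x : ZMod p, quadraticChar (ZMod p) (x + u) * quadraticChar (ZMod p) (x + v) =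
      (p : ℤ) * (if u = v then 1 else 0) - 1 := by
  have hc : ringChar (ZMod p) ≠ 2 := by rwa [ZMod.ringChar_zmod_n]
  have h0 : ∑ x : ZMod p, quadraticChar (ZMod p) x = 0 := quadraticChar_sum_zero hc
  have ht : ∑ x : ZMod p, quadraticChar (ZMod p) (x + u) * quadraticChar (ZMod p) (x + v) =
      ∑ x : ZMod p, quadraticChar (ZMod p) x * quadraticChar (ZMod p) (x + (v - u)) := by
    refine Fintype.sum_equiv (Equiv.addRight u) _ _ fun x => ?_
    simp only [Equiv.coe_addRight]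
    congr 2
    ring
  rw [ht]
  by_cases h : u = v
  · rw [if_pos h, h, sub_self]
    have h1 : ∀ x : ZMod p, quadraticChar (ZMod p) x * quadraticChar (ZMod p) (x + 0) =
        1 - if x = 0 then 1 else 0 := by
      intro x
      rw [add_zero, ← sq]
      by_cases hx : x = 0
      · rw [hx, MulChar.map_zero, if_pos rfl]
        norm_num
      · rw [if_neg hx, quadraticChar_sq_one hx, sub_zero]
    rw [sum_congr rfl fun x _ => h1 x, sum_sub_distrib, sum_ite_eq', if_pos (mem_univ _)]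
    simp [ZMod.card]
  · rw [if_neg h]
    obtain ⟨w, hw⟩ : ∃ w, w = v - u := ⟨_, rfl⟩
    have hw0 : w ≠ 0 := by
      rw [hw]
      exact sub_ne_zero.2 (Ne.symm h)
    rw [← hw]
    -- for `x ≠ 0` the term is the value at `1 + w / x`
    have h1 : ∀ x : ZMod p, quadraticChar (ZMod p) x * quadraticChar (ZMod p) (x + w) =
        quadraticChar (ZMod p) (1 + w * x⁻¹) - if x = 0 then 1 else 0 := by
      intro x
      by_cases hx : x = 0
      · rw [hx, MulChar.map_zero, if_pos rfl]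
        simp
      · rw [if_neg hx, sub_zero]
        have e : x + w = x * (1 + w * x⁻¹) := by
          field_simp
        rw [e, map_mul, ← mul_assoc, ← sq, quadraticChar_sq_one hx, one_mul]
    rw [sum_congr rfl fun x _ => h1 x, sum_sub_distrib, sum_ite_eq', if_pos (mem_univ _)]
    have h2 : ∑ x : ZMod p, quadraticChar (ZMod p) (1 + w * x⁻¹) =
        ∑ y : ZMod p, quadraticChar (ZMod p) y := by
      have hb : Function.Bijective (fun x : ZMod p => 1 + w * x⁻¹) := by
        refine Finite.injective_iff_bijective.1 fun a b hab => ?_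
        have h3 : w * a⁻¹ = w * b⁻¹ := by simpa using hab
        exact inv_injective (mul_left_cancel₀ hw0 h3)
      exact Fintype.sum_bijective _ hb _ _ fun x => rfl
    rw [h2, h0]
    simp

theorem bil (p p' : ℕ) (J : Finset ℕ) (m F G : ℕ → ℤ) (hp : p.Prime) (hp' : p'.Prime)
    (h2 : p ≠ 2) (h2' : p' ≠ 2) (hne : p ≠ p') (hF : ∀ n, |F n| ≤ 1) (hG : ∀ n, |G n| ≤ 1) :
    (∑ i ∈ J, ∑ j ∈ J, jacobiSym (m i + m j) (p * p') * F i * G j) ^ 2 ≤
      (p : ℤ) * p' * (((J ×ˢ J).filter (fun x => ((p : ℤ) * p') ∣ m x.1 - m x.2)).card : ℤ) ^ 2 := by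
  haveI : Fact p.Prime := ⟨hp⟩
  haveI : Fact p'.Prime := ⟨hp'⟩
  haveI : NeZero p := ⟨hp.ne_zero⟩
  haveI : NeZero p' := ⟨hp'.ne_zero⟩
  obtain ⟨r, hr⟩ : ∃ r : ℕ → ZMod p × ZMod p', r = fun i => ((m i : ZMod p), (m i : ZMod p')) :=
    ⟨_, rfl⟩
  have hr1 : ∀ i, (r i).1 = (m i : ZMod p) := fun i => by rw [hr]
  have hr2 : ∀ i, (r i).2 = (m i : ZMod p') := fun i => by rw [hr]
  -- the kernel
  obtain ⟨X, hX⟩ : ∃ X : ZMod p × ZMod p' → ZMod p × ZMod p' → ℤ, X = fun x y =>
    quadraticChar (ZMod p) (x.1 + y.1) * quadraticChar (ZMod p') (x.2 + y.2) := ⟨_, rfl⟩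
  obtain ⟨V, hV⟩ : ∃ V : ZMod p × ZMod p' → ℤ, V = fun x => ∑ j ∈ J, X x (r j) * G j :=
    ⟨_, rfl⟩
  obtain ⟨N, hN⟩ : ∃ N : ℤ, N =
    (((J ×ˢ J).filter (fun x => ((p : ℤ) * p') ∣ m x.1 - m x.2)).card : ℤ) := ⟨_, rfl⟩
  have hNr : (((J ×ˢ J).filter (fun x => r x.1 = r x.2)).card : ℤ) = N := by
    rw [hN]
    congr 2
    refine filter_congr fun x _ => ?_
    rw [Prod.ext_iff, hr1, hr1, hr2, hr2]
    have hcop : IsCoprime (p : ℤ) (p' : ℤ) :=
      Nat.isCoprime_iff_coprime.2 ((Nat.coprime_primes hp hp').2 hne)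
    constructor
    · rintro ⟨a, b⟩
      refine hcop.mul_dvd ?_ ?_
      · rw [← ZMod.intCast_zmod_eq_zero_iff_dvd]
        push_cast
        rw [a, sub_self]
      · rw [← ZMod.intCast_zmod_eq_zero_iff_dvd]
        push_cast
        rw [b, sub_self]
    · intro h
      have a : (p : ℤ) ∣ m x.1 - m x.2 := (Dvd.intro _ rfl).trans h
      have b : (p' : ℤ) ∣ m x.1 - m x.2 := (Dvd.intro_left _ rfl).trans h
      rw [← ZMod.intCast_zmod_eq_zero_iff_dvd] at a b
      push_cast at a b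
      exact ⟨sub_eq_zero.1 a, sub_eq_zero.1 b⟩
  have hT : ∑ i ∈ J, ∑ j ∈ J, jacobiSym (m i + m j) (p * p') * F i * G j =
      ∑ i ∈ J, F i * V (r i) := by
    refine sum_congr rfl fun i _ => ?_
    rw [hV]
    simp only [mul_sum]
    refine sum_congr rfl fun j _ => ?_
    rw [hX]
    simp only
    rw [hr1, hr1, hr2, hr2, jacobiSym.mul_right, ← jacobiSym.legendreSym.to_jacobiSym,
      ← jacobiSym.legendreSym.to_jacobiSym, legendreSym, legendreSym]
    push_cast
    ring
  -- the second moment of `V`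
  have hVV : ∑ x, V x ^ 2 ≤ (p : ℤ) * p' * N := by
    have e1 : ∑ x, V x ^ 2 = ∑ j ∈ J, ∑ j' ∈ J, G j * G j' *
        (((p : ℤ) * (if (m j : ZMod p) = m j' then 1 else 0) - 1) *
          ((p' : ℤ) * (if (m j : ZMod p') = m j' then 1 else 0) - 1)) := by
      rw [hV]
      simp only [sq, sum_mul_sum]
      rw [sum_comm]
      refine sum_congr rfl fun j _ => ?_
      rw [sum_comm]
      refine sum_congr rfl fun j' _ => ?_
      rw [← corr p h2, ← corr p' h2', sum_mul_sum, ← Fintype.sum_prod_type', mul_sum]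
      refine sum_congr rfl fun x _ => ?_
      rw [hX]
      simp only
      rw [hr1, hr1, hr2, hr2]
      ring
    have e2 : ∑ j ∈ J, ∑ j' ∈ J, G j * G j' *
        (((p : ℤ) * (if (m j : ZMod p) = m j' then 1 else 0) - 1) *
          ((p' : ℤ) * (if (m j : ZMod p') = m j' then 1 else 0) - 1)) =
        (p : ℤ) * p' * (∑ j ∈ J, ∑ j' ∈ J, if r j = r j' then G j * G j' else 0) -
          p * (∑ j ∈ J, ∑ j' ∈ J, if (m j : ZMod p) = m j' then G j * G j' else 0) -
          p' * (∑ j ∈ J, ∑ j' ∈ J, if (m j : ZMod p') = m j' then G j * G j' else 0) +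
          (∑ j ∈ J, G j) ^ 2 := by
      rw [sq, sum_mul_sum]
      simp only [mul_sum]
      rw [← sum_sub_distrib, ← sum_sub_distrib, ← sum_add_distrib]
      refine sum_congr rfl fun j _ => ?_
      rw [← sum_sub_distrib, ← sum_sub_distrib, ← sum_add_distrib]
      refine sum_congr rfl fun j' _ => ?_
      have h3 : (r j = r j') ↔ ((m j : ZMod p) = m j' ∧ (m j : ZMod p') = m j') := by
        rw [Prod.ext_iff, hr1, hr1, hr2, hr2]
      by_cases ha : (m j : ZMod p) = m j' <;> by_cases hb : (m j : ZMod p') = m j' <;>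
        simp only [h3, ha, hb, if_true, if_false, and_true, and_false, true_and] <;> ring
    rw [e1, e2, ← sq_fib J r G, ← sq_fib J (fun j => (m j : ZMod p)) G,
      ← sq_fib J (fun j => (m j : ZMod p')) G]
    have e3 := fib_le J r G hG
    rw [hNr] at e3
    have e4 : (∑ j ∈ J, G j) ^ 2 ≤
        (p : ℤ) * ∑ x : ZMod p, (∑ i ∈ J, if (m i : ZMod p) = x then G i else 0) ^ 2 := by
      have h5 : ∑ j ∈ J, G j = ∑ x : ZMod p, ∑ i ∈ J, if (m i : ZMod p) = x then G i else 0 := by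
        rw [sum_comm]
        refine sum_congr rfl fun i _ => ?_
        rw [sum_ite_eq]
        simp
      rw [h5]
      have h6 := sq_sum_le_card_mul_sum_sq (s := (univ : Finset (ZMod p)))
        (f := fun x => ∑ i ∈ J, if (m i : ZMod p) = x then G i else 0)
      rwa [card_univ, ZMod.card] at h6
    have e5 : 0 ≤ (p' : ℤ) *
        ∑ x : ZMod p', (∑ i ∈ J, if (m i : ZMod p') = x then G i else 0) ^ 2 :=
      mul_nonneg (Nat.cast_nonneg _) (sum_nonneg fun x _ => sq_nonneg _)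
    have e6 : (p : ℤ) * p' * ∑ x, (∑ i ∈ J, if r i = x then G i else 0) ^ 2 ≤
        (p : ℤ) * p' * N := mul_le_mul_of_nonneg_left e3 (by positivity)
    linarith
  have hFF := fib_le J r F hF
  rw [hNr] at hFF
  rw [hT, ← hN]
  refine (cs J r F V).trans ?_
  have hN0 : 0 ≤ N := by
    rw [hN]
    positivity
  calc (∑ x, (∑ i ∈ J, if r i = x then F i else 0) ^ 2) * ∑ x, V x ^ 2
      ≤ N * ((p : ℤ) * p' * N) :=
        mul_le_mul hFF hVV (sum_nonneg fun x _ => sq_nonneg _) hN0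
    _ = (p : ℤ) * p' * N ^ 2 := by ring

end Pool.Agent.Helper9.RD6

namespace Pool.Agent.Helper18.RD

theorem st_BIL : ST_BIL := by
  intro p p' J m F G hp hp' h2 h2' hne hF hG
  exact Pool.Agent.Helper9.RD6.bil p p' J m F G hp hp' h2 h2' hne hF hG

end Pool.Agent.Helper18.RD
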