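import Pool.Agent.Helper18.RD.Stmts8

/-! Row DPNR of project RD, eighth form (MP_b7477f_nt); adapted from `Helper30/RD6/DPN.lean`. -/

set_option autoImplicit false

namespace Pool.Agent.Helper9.RD6

open Finset Pool.Agent.Helper18.RD

theorem st_DPNR (hAR : ST_ARN) (hBAD : ST_BADNR) (hGT : ST_GT6) (hM : ST_MLW6) (hE : ST_END4) :
    ST_DPNR := by
  classical
  intro ε hε
  obtain ⟨K, hK⟩ : ∃ K : ℕ, K = ⌈10 / ε⌉₊ := ⟨_, rfl⟩
  have hKε : 10 ≤ ε * K := by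
    have h1 : 10 / ε ≤ K := by rw [hK]; exact Nat.le_ceil _
    rw [div_le_iff₀ hε] at h1
    linarith
  have hK1 : 1 ≤ K := by
    rw [hK]; exact Nat.ceil_pos.mpr (by positivity)
  obtain ⟨C2, hC2, hB⟩ := hBAD K (K + K) hK1
  obtain ⟨C3, hC3, hM⟩ := hM K hK1
  obtain ⟨C4, hC4, hE⟩ := hE ε hε
  obtain ⟨N0, hN0⟩ : ∃ N0 : ℕ, ∀ N : ℕ, N0 ≤ N →
      (1 + C2) * (1 + Real.log N) ≤ (N : ℝ) ^ ε ∧ 2 * C3 + C2 ≤ (N : ℝ) := by
    have h2 : (fun x : ℝ => 1 + Real.log x) =o[Filter.atTop] (fun x : ℝ => x ^ ε) := by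
      apply Asymptotics.IsLittleO.add
      · rw [Asymptotics.isLittleO_const_left]
        right
        exact tendsto_norm_atTop_atTop.comp (tendsto_rpow_atTop (by positivity))
      · exact isLittleO_log_rpow_atTop (by positivity)
    have h3 := h2.bound (show (0 : ℝ) < 1 / (1 + C2) by positivity)
    have h4 : ∀ᶠ x : ℝ in Filter.atTop, (1 + C2) * (1 + Real.log x) ≤ x ^ ε ∧
        2 * C3 + C2 ≤ x := by
      filter_upwards [h3, Filter.eventually_ge_atTop (2 * C3 + C2), Filter.eventually_ge_atTop 1]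
        with x hx hx2 hx1
      refine ⟨?_, hx2⟩
      have h5 : (0 : ℝ) < x ^ ε := Real.rpow_pos_of_pos (by linarith) _
      rw [Real.norm_of_nonneg h5.le] at hx
      have h6 : 1 + Real.log x ≤ 1 / (1 + C2) * x ^ ε := (Real.le_norm_self _).trans hx
      calc (1 + C2) * (1 + Real.log x) ≤ (1 + C2) * (1 / (1 + C2) * x ^ ε) :=
            mul_le_mul_of_nonneg_left h6 (by positivity)
        _ = x ^ ε := by field_simp
    obtain ⟨N0, hN0⟩ := Filter.eventually_atTop.mp (tendsto_natCast_atTop_atTop.eventually h4)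
    exact ⟨N0, fun N hN => hN0 N hN⟩
  obtain ⟨κ, hκ⟩ : ∃ κ : ℝ, κ = 4 * K := ⟨_, rfl⟩
  have hKr : (1 : ℝ) ≤ K := by exact_mod_cast hK1
  have hκ0 : 0 < κ := by rw [hκ]; positivity
  obtain ⟨C5, hC5⟩ : ∃ C5 : ℝ, C5 = 4 * C3 ^ 2 * C4 := ⟨_, rfl⟩
  have hC50 : 0 < C5 := by rw [hC5]; positivity
  obtain ⟨C, hC⟩ : ∃ C : ℝ, C = 2 * C2 + 2 * C5 + N0 + 4 := ⟨_, rfl⟩
  have hN0' : (0 : ℝ) ≤ N0 := Nat.cast_nonneg _
  have hCpos : 0 < C := by rw [hC]; positivity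
  refine ⟨C, κ, hCpos, hκ0, ?_⟩
  intro N q a P z R D hN hq hz hcopa hNP hD1 hPP hMR hNPq
  have hNr : (1 : ℝ) ≤ N := by exact_mod_cast hN
  obtain ⟨y, hy⟩ : ∃ y : ℝ, y = (z : ℝ) + N / z := ⟨_, rfl⟩
  have hyr : (1 : ℝ) ≤ y := by
    have h1 : (1 : ℝ) ≤ z := by exact_mod_cast hz
    have h2 : (0 : ℝ) ≤ (N : ℝ) / z := by positivity
    rw [hy]
    linarith
  rw [← hy]
  have hNpos : (0 : ℝ) < N := by linarith
  have hD0 : 0 < D := by linarith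
  have hNε : 1 ≤ (N : ℝ) ^ ε := Real.one_le_rpow hNr hε.le
  have hP1 : (1 : ℝ) ≤ P := hNε.trans hNP
  by_contra hcon
  push Not at hcon
  obtain ⟨V, hV⟩ : ∃ V : ℝ, V = ((SS N q a).card : ℝ) := ⟨_, rfl⟩
  rw [← hV] at hcon
  have hRN : V ≤ N := by
    have h1 : (SS N q a).card ≤ N := by
      calc (SS N q a).card ≤ (range N).card := card_filter_le _ _
        _ = N := card_range N
    rw [hV]; exact_mod_cast h1
  obtain ⟨Y, hY⟩ : ∃ Y : ℝ, Y = D ^ κ * (N : ℝ) ^ ε := ⟨_, rfl⟩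
  have hDκ : 1 ≤ D ^ κ := Real.one_le_rpow hD1 hκ0.le
  have hY1 : 1 ≤ Y := by rw [hY]; exact one_le_mul_of_one_le_of_one_le hDκ hNε
  have hYy : Y ≤ Y * y := le_mul_of_one_le_right (by linarith) hyr
  rw [← hY] at hcon hNPq
  have hcon2 : C * (Y * y) ≤ V := hcon.le
  have hCN0 : (N0 : ℝ) ≤ C := by rw [hC]; linarith
  have hC4' : 4 ≤ C := by rw [hC]; linarith
  have hNC : (N0 : ℝ) ≤ N := by
    have h1 : C * 1 ≤ C * (Y * y) := mul_le_mul_of_nonneg_left (by linarith) hCpos.le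
    linarith
  obtain ⟨hN1, hN2⟩ := hN0 N (by exact_mod_cast hNC)
  have hlog : 0 ≤ Real.log (N : ℝ) := Real.log_natCast_nonneg N
  -- D is small
  have hDN : D ^ κ ≤ N := by
    have h1 : Y ≤ N := by nlinarith
    calc D ^ κ = D ^ κ * 1 := (mul_one _).symm
      _ ≤ D ^ κ * (N : ℝ) ^ ε := by gcongr
      _ ≤ N := by rw [← hY]; exact h1
  have hD2K : D ^ (2 * K) ≤ D ^ κ := by
    rw [← Real.rpow_natCast]
    apply Real.rpow_le_rpow_of_exponent_le hD1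
    push_cast
    rw [hκ]; linarith
  have hDKK : D ^ (K + K) ≤ D ^ κ := by
    rw [← two_mul]; exact hD2K
  have hDN1 : D ^ (K + K) ≤ N := hDKK.trans hDN
  have hD2N : D ^ (2 * K) ≤ N := hD2K.trans hDN
  have hPK : (N : ℝ) ^ (10 : ℕ) ≤ (P : ℝ) ^ K := by
    calc (N : ℝ) ^ (10 : ℕ) = (N : ℝ) ^ (10 : ℝ) := by
          rw [← Real.rpow_natCast]; norm_num
      _ ≤ (N : ℝ) ^ (ε * K) := Real.rpow_le_rpow_of_exponent_le hNr hKε
      _ = ((N : ℝ) ^ ε) ^ K := by rw [Real.rpow_mul hNpos.le, Real.rpow_natCast]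
      _ ≤ (P : ℝ) ^ K := pow_le_pow_left₀ (by positivity) hNP K
  have hNPK : N ^ 10 ≤ P ^ K := by exact_mod_cast hPK
  have hPbig : C2 * (N : ℝ) ^ 8 * D ^ (2 * K) ≤ (P : ℝ) ^ (2 * K) := by
    calc C2 * (N : ℝ) ^ 8 * D ^ (2 * K) ≤ (N : ℝ) * (N : ℝ) ^ 8 * N := by
          have h1 : C2 ≤ N := by linarith
          gcongr
      _ = (N : ℝ) ^ 10 * 1 := by ring
      _ ≤ (N : ℝ) ^ 10 * (N : ℝ) ^ 10 := by
          have h1 : (1 : ℝ) ≤ (N : ℝ) ^ 10 := one_le_pow₀ hNr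
          gcongr
      _ ≤ (P : ℝ) ^ K * (P : ℝ) ^ K := mul_le_mul hPK hPK (by positivity) (by positivity)
      _ = (P : ℝ) ^ (2 * K) := by rw [← pow_add, two_mul]
  -- the points
  obtain ⟨S, e, c, d, k, w, m, hSS, hhalf, hdat, hdatN⟩ := hAR N q a hN hq hcopa
  have hhalf' : V ≤ 2 * (S.card : ℝ) := by rw [hV]; exact_mod_cast hhalf
  have hSbig : C / 2 * (Y * y) ≤ S.card := by linarith
  have hDY : D ^ (2 * K) ≤ Y := by
    calc D ^ (2 * K) ≤ D ^ κ := hD2K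
      _ = D ^ κ * 1 := (mul_one _).symm
      _ ≤ Y := by rw [hY]; gcongr
  have hcond1 : C2 * D ^ (2 * K) * y ≤ S.card := by
    have h1 : C2 ≤ C / 2 := by rw [hC]; linarith
    calc C2 * D ^ (2 * K) * y ≤ C / 2 * Y * y := by gcongr
      _ = C / 2 * (Y * y) := by ring
      _ ≤ S.card := hSbig
  have hcond2 : C2 * D ^ (2 * K) * (1 + Real.log N) ≤ (R.card : ℝ) := by
    refine le_trans ?_ hNPq
    have h4 : C2 * (1 + Real.log N) ≤ (N : ℝ) ^ ε := by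
      refine le_trans ?_ hN1
      exact mul_le_mul_of_nonneg_right (by linarith) (by linarith)
    calc C2 * D ^ (2 * K) * (1 + Real.log N) = D ^ (2 * K) * (C2 * (1 + Real.log N)) := by ring
      _ ≤ D ^ κ * (N : ℝ) ^ ε :=
          mul_le_mul hD2K h4 (mul_nonneg hC2.le (by linarith)) (by positivity)
      _ = Y := hY.symm
  obtain ⟨b, hb1, hb2⟩ := hB N q P z D S R e c d k w m hN hq hz hD1 hdat hdatN hPbig hPP hMR
    (by rw [← hy]; exact hcond1) hcond2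
  have hSpos : (0 : ℝ) < S.card := by
    have : 0 < C / 2 * (Y * y) := by positivity
    linarith
  have hSne : S.Nonempty := by
    rw [← card_pos]; exact_mod_cast hSpos
  obtain ⟨T, hT1, hT2⟩ := hGT S (PP q P) e (K + K) b hSne hdat.sgn hb2 hb1
  have hmain := hM N q P D S e c d k w T hN hNPK hD1 hdat hPP hT1 hT2
  have hend := hE N S c d k hN hdat.sub hdat.kap hdat.cd
  obtain ⟨t, ht⟩ : ∃ t : ℝ, t = (S.card : ℝ) := ⟨_, rfl⟩
  rw [← ht] at hmain hend hSpos hSbig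
  obtain ⟨Q, hQ⟩ : ∃ Q : ℝ, Q = D ^ (K + K) := ⟨_, rfl⟩
  have hQ0 : 0 < Q := by rw [hQ]; positivity
  have h7 : C3 * Q * (t ^ 8 / (N : ℝ) ^ 2) ≤ t ^ 8 / 2 := by
    have h1 : C3 * Q ≤ (N : ℝ) / 2 * N := by
      have : C3 ≤ (N : ℝ) / 2 := by linarith
      rw [hQ]
      exact mul_le_mul this hDN1 (by positivity) (by positivity)
    calc C3 * Q * (t ^ 8 / (N : ℝ) ^ 2) ≤ ((N : ℝ) / 2 * N) * (t ^ 8 / (N : ℝ) ^ 2) :=
          mul_le_mul_of_nonneg_right h1 (by positivity)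
      _ = t ^ 8 / 2 := by field_simp
  have h8 : t ^ 8 ≤ 2 * (C3 * Q * (MM S c d).card) := by
    rw [← hQ, mul_add] at hmain
    linarith
  have hDK : Q ^ 2 ≤ D ^ κ := by
    rw [hQ, ← pow_mul, ← Real.rpow_natCast]
    apply Real.rpow_le_rpow_of_exponent_le hD1
    push_cast
    rw [hκ]; linarith
  have h9 : t ^ 15 * t ≤ t ^ 15 * (C5 * Y) := by
    calc t ^ 15 * t = (t ^ 8) ^ 2 := by ring
      _ ≤ (2 * (C3 * Q * (MM S c d).card)) ^ 2 := pow_le_pow_left₀ (by positivity) h8 2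
      _ = 4 * C3 ^ 2 * Q ^ 2 * ((MM S c d).card : ℝ) ^ 2 := by ring
      _ ≤ 4 * C3 ^ 2 * D ^ κ * (C4 * t ^ 15 * (N : ℝ) ^ ε) := by gcongr
      _ = t ^ 15 * (C5 * Y) := by rw [hC5, hY]; ring
  have h10 : t ≤ C5 * Y := le_of_mul_le_mul_left h9 (by positivity)
  have h11 : (C5 + 1) * Y ≤ C / 2 * (Y * y) := by
    have h1 : C5 + 1 ≤ C / 2 := by rw [hC]; linarith
    calc (C5 + 1) * Y ≤ C / 2 * Y := mul_le_mul_of_nonneg_right h1 (by linarith)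
      _ ≤ C / 2 * (Y * y) := mul_le_mul_of_nonneg_left hYy (by linarith)
  nlinarith

end Pool.Agent.Helper9.RD6
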